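import Mathlib

/-!
# Derivations with prescribed values on an algebraically independent family
-/

namespace Pool.Agent.GenTuple

open MvPolynomial KaehlerDifferential TensorProduct

noncomputable section

variable {k F : Type*} [Field k] [Field F] [Algebra k F]

/-- extension of derivations along formally étale algebras -/
theorem exists_ext (k P F : Type*) [CommRing k] [CommRing P] [CommRing F] [Algebra k P] [Algebra k F]
    [Algebra P F] [IsScalarTower k P F] [Algebra.FormallyEtale P F] (d : Derivation k P F) :
    ∃ D : Derivation k F F, ∀ s : P, D (algebraMap P F s) = d s := by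
  let l : Ω[P⁄k] →ₗ[P] F := d.liftKaehlerDifferential
  let l' : F ⊗[P] Ω[P⁄k] →ₗ[F] F := LinearMap.liftBaseChange F l
  let φ : Ω[F⁄k] →ₗ[F] F := l' ∘ₗ (tensorKaehlerEquivOfFormallyEtale k P F).symm.toLinearMap
  refine ⟨φ.compDer (KaehlerDifferential.D k F), fun s => ?_⟩
  change l' ((tensorKaehlerEquivOfFormallyEtale k P F).symm (KaehlerDifferential.D k F
    (algebraMap P F s))) = d s
  rw [tensorKaehlerEquivOfFormallyEtale_symm_D_algebraMap, LinearMap.liftBaseChange_tmul, one_smul,
    Derivation.liftKaehlerDifferential_comp_D]

theorem exists_der [CharZero k] {ι : Type*} {a : ι → F} (ha : AlgebraicIndependent k a)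
    (v : ι → F) : ∃ D : Derivation k F F, ∀ i, D (a i) = v i := by
  classical
  have hx1 : AlgebraicIndepOn k _root_.id (Set.range a) := ha.coe_range
  obtain ⟨t, hxt, ht⟩ := exists_isTranscendenceBasis_superset hx1
  let P := MvPolynomial t k
  let _ : Algebra P F := (aeval (R := k) (fun i : t => (i : F))).toRingHom.toAlgebra
  have _ : IsScalarTower k P F := IsScalarTower.of_algebraMap_eq fun c => by
    change algebraMap k F c = aeval (R := k) (fun i : t => (i : F)) (algebraMap k P c)
    rw [AlgHom.commutes]
  have hinj : Function.Injective (algebraMap P F) := ht.1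
  have _ : FaithfulSMul P F := (faithfulSMul_iff_algebraMap_injective P F).2 hinj
  have halgP : Algebra.IsAlgebraic P F := by
    have h1 := ht.isAlgebraic
    constructor
    intro a
    refine IsAlgebraic.of_ringHom_of_comp_eq (S := Algebra.adjoin k (Set.range fun i : t => (i : F)))
      (B := F) (ht.1.aevalEquiv : P →+* _) (RingHom.id F) (a := a) (h1.1 a) ?_ ?_ ?_
    · exact (ht.1.aevalEquiv).surjective
    · exact fun _ _ h => h
    · ext c
      · simp only [RingHom.comp_apply, RingHom.id_apply]
        change _ = aeval (R := k) (fun i : t => (i : F)) (C c)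
        simp
      · simp only [RingHom.comp_apply, RingHom.id_apply]
        change _ = aeval (R := k) (fun i : t => (i : F)) (X c)
        simp
  let Fr := FractionRing P
  let _ : Algebra Fr F := FractionRing.liftAlgebra P F
  have _ : IsScalarTower P Fr F := FractionRing.isScalarTower_liftAlgebra P F
  have _ : Algebra.IsAlgebraic Fr F := (IsFractionRing.comap_isAlgebraic_iff (A := P) (K := Fr)).1 halgP
  have _ : CharZero Fr := charZero_of_injective_algebraMap (R := k) (A := Fr) (by
    exact (algebraMap k Fr).injective)
  have _ : Algebra.FormallyEtale Fr F := Algebra.FormallyEtale.of_isSeparable Fr F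
  have _ : Algebra.FormallyEtale P Fr := Algebra.FormallyEtale.of_isLocalization (nonZeroDivisors P)
  have _ : Algebra.FormallyEtale P F := Algebra.FormallyEtale.comp P Fr F
  let w : t → F := fun s => if h : ∃ i, a i = s then v h.choose else 0
  let d : Derivation k P F := mkDerivation k w
  obtain ⟨D, hD⟩ := exists_ext k P F d
  refine ⟨D, fun i => ?_⟩
  have h1 : algebraMap P F (X ⟨a i, hxt ⟨i, rfl⟩⟩) = a i := by
    change aeval (R := k) (fun i : t => (i : F)) _ = a i
    rw [aeval_X]
  rw [← h1, hD, mkDerivation_X]
  have h2 : ∃ i', a i' = ((⟨a i, hxt ⟨i, rfl⟩⟩ : t) : F) := ⟨i, rfl⟩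
  simp only [w]
  rw [dif_pos h2]
  congr 1
  exact ha.injective h2.choose_spec

end

end Pool.Agent.GenTuple
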