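import Mathlib

/-!
# Counting integer points on which many polynomials in few variables vanish
-/

namespace Pool.Agent.GenTuple
open MvPolynomial

variable {K σ : Type} [Field K] [CharZero K] [Fintype σ] [DecidableEq σ]

omit [CharZero K] [Fintype σ] in
/-- splitting off one variable -/
theorem split_var (f : MvPolynomial σ K) (hf : f ≠ 0) (i : σ) (A : Finset σ)
    (hv : f.vars ⊆ insert i A) (hi : i ∉ A) :
    ∃ (D : ℕ) (h : ℕ → MvPolynomial σ K), (∀ j, (h j).vars ⊆ A) ∧
      f = ∑ j ∈ Finset.range (D + 1), X i ^ j * h j ∧ ∃ j ≤ D, h j ≠ 0 := by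
  classical
  let D := f.support.sup fun α => α i
  let h : ℕ → MvPolynomial σ K := fun j =>
    ∑ α ∈ f.support.filter fun α => α i = j, monomial (α.erase i) (f.coeff α)
  have hD : ∀ α ∈ f.support, α i ∈ Finset.range (D + 1) := by
    intro α hα
    rw [Finset.mem_range, Nat.lt_succ_iff]
    exact Finset.le_sup (f := fun α : σ →₀ ℕ => α i) hα
  have hsum : f = ∑ j ∈ Finset.range (D + 1), X i ^ j * h j := by
    conv_lhs => rw [f.as_sum]
    rw [← Finset.sum_fiberwise_of_maps_to hD]
    refine Finset.sum_congr rfl fun j _ => ?_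
    simp only [h]
    rw [Finset.mul_sum]
    refine Finset.sum_congr rfl fun α hα => ?_
    have hαi : α i = j := (Finset.mem_filter.1 hα).2
    rw [X_pow_eq_monomial, monomial_mul, one_mul, ← hαi, Finsupp.single_add_erase]
  refine ⟨D, h, ?_, hsum, ?_⟩
  · intro j
    refine (vars_sum_subset _ _).trans ?_
    intro q hq
    rw [Finset.mem_biUnion] at hq
    obtain ⟨α, hα, hq⟩ := hq
    have hαs := (Finset.mem_filter.1 hα).1
    have h1 : q ∈ (α.erase i).support := by
      have h2 := vars_monomial (s := α.erase i) (mem_support_iff.1 hαs)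
      rw [h2] at hq
      exact hq
    rw [Finsupp.support_erase, Finset.mem_erase] at h1
    have h3 : q ∈ f.vars := (mem_vars_iff_mem_support q).2 ⟨α, hαs, h1.2⟩
    have h4 := hv h3
    rw [Finset.mem_insert] at h4
    exact h4.resolve_left h1.1
  · by_contra hcon
    push Not at hcon
    apply hf
    rw [hsum]
    refine Finset.sum_eq_zero fun j hj => ?_
    rw [hcon j (by rw [Finset.mem_range] at hj; omega), mul_zero]

omit [CharZero K] [Fintype σ] [DecidableEq σ] in
theorem eval_congr_vars (f : MvPolynomial σ K) (A : Finset σ) (hv : f.vars ⊆ A) (a b : σ → K)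
    (hab : ∀ q ∈ A, a q = b q) : eval a f = eval b f := by
  rw [eval_eq, eval_eq]
  refine Finset.sum_congr rfl fun α hα => ?_
  congr 1
  refine Finset.prod_congr rfl fun q hq => ?_
  rw [hab q (hv ((mem_vars_iff_mem_support q).2 ⟨α, hα, hq⟩))]

/-- `f` vanishes on `B` -/
def Van (K : Type) [Field K] {σ : Type} (B : Set (σ → ℤ)) (f : MvPolynomial σ K) : Prop :=
  ∀ l ∈ B, eval (fun q => ((l q : ℤ) : K)) f = 0

/-- a nonzero polynomial in the variables of `A` vanishes on `B` -/
def Cov (K : Type) [Field K] {σ : Type} (B : Set (σ → ℤ)) (A : Finset σ) : Prop :=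
  ∃ f : MvPolynomial σ K, f ≠ 0 ∧ f.vars ⊆ A ∧ Van K B f

/-- the box -/
noncomputable def box (σ : Type) [Fintype σ] [DecidableEq σ] (H : ℕ) : Finset (σ → ℤ) :=
  Fintype.piFinset fun _ => Finset.Icc (-(H : ℤ)) H

/-- the number of points of `B` in the box -/
noncomputable def cnt {σ : Type} [Fintype σ] [DecidableEq σ] (B : Set (σ → ℤ)) (H : ℕ) : ℕ := by
  classical
  exact ((box σ H).filter fun l => l ∈ B).card

omit [CharZero K] in
theorem Cov.mono {B B' : Set (σ → ℤ)} (h : B' ⊆ B) {A : Finset σ} (hc : Cov K B A) :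
    Cov K B' A := by
  obtain ⟨f, h1, h2, h3⟩ := hc
  exact ⟨f, h1, h2, fun l hl => h3 l (h hl)⟩

/-- the points over which all fibres are small -/
theorem cnt_fiber (B : Set (σ → ℤ)) (A : Finset σ)
    (D : σ → ℕ) (h : σ → ℕ → MvPolynomial σ K) (hv : ∀ i ∉ A, ∀ j, (h i j).vars ⊆ A)
    (hz : ∀ i ∉ A, Van K B (∑ j ∈ Finset.range (D i + 1), X i ^ j * h i j))
    (hn : ∀ i ∉ A, ∀ l ∈ B, ∃ j ≤ D i, eval (fun q => ((l q : ℤ) : K)) (h i j) ≠ 0) :
    ∃ C : ℕ, ∀ H : ℕ, cnt B H ≤ C * (2 * H + 1) ^ A.card := by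
  classical
  refine ⟨∏ i, (D i + 1), fun H => ?_⟩
  set S := (box σ H).filter fun l => l ∈ B with hS
  have hcnt : cnt B H = S.card := by
    rw [hS, cnt]
  rw [hcnt]
  let ρ : (σ → ℤ) → (A → ℤ) := fun l a => l a
  have h1 := Finset.card_le_mul_card_image (f := ρ) S (∏ i, (D i + 1)) ?_
  · refine h1.trans (Nat.mul_le_mul_left _ ?_)
    have h2 : S.image ρ ⊆ Fintype.piFinset fun _ : A => Finset.Icc (-(H : ℤ)) H := by
      intro m hm
      obtain ⟨l, hl, rfl⟩ := Finset.mem_image.1 hm
      rw [Fintype.mem_piFinset]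
      intro a
      have h3 := (Finset.mem_filter.1 hl).1
      rw [box, Fintype.mem_piFinset] at h3
      exact h3 a
    refine (Finset.card_le_card h2).trans ?_
    rw [Fintype.card_piFinset]
    simp only [Int.card_Icc, Finset.prod_const, Finset.card_univ, Fintype.card_coe]
    refine le_of_eq ?_
    congr 1
    omega
  · intro m hm
    obtain ⟨l0, hl0, hl0m⟩ := Finset.mem_image.1 hm
    have hl0B : l0 ∈ B := (Finset.mem_filter.1 hl0).2
    -- the one variable polynomials
    let Q : σ → Polynomial K := fun i => ∑ j ∈ Finset.range (D i + 1),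
      Polynomial.monomial j (eval (fun q => ((l0 q : ℤ) : K)) (h i j))
    have hQdeg : ∀ i, (Q i).natDegree ≤ D i := by
      intro i
      refine Polynomial.natDegree_sum_le_of_forall_le _ _ fun j hj => ?_
      refine (Polynomial.natDegree_monomial_le _).trans ?_
      rw [Finset.mem_range] at hj
      omega
    have hQ0 : ∀ i ∉ A, Q i ≠ 0 := by
      intro i hi hQ
      obtain ⟨j, hj, hjn⟩ := hn i hi l0 hl0B
      apply hjn
      have h3 := congrArg (fun q => q.coeff j) hQ
      simp only [Q, Polynomial.finsetSum_coeff, Polynomial.coeff_monomial, Polynomial.coeff_zero] at h3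
      rw [Finset.sum_ite_eq' , if_pos (Finset.mem_range.2 (by omega))] at h3
      exact h3
    let R : σ → Finset ℤ := fun i => if i ∈ A then {l0 i} else
      ((Q i).roots.toFinset.preimage (fun z : ℤ => (z : K)) (Int.cast_injective.injOn))
    have hRcard : ∀ i, (R i).card ≤ D i + 1 := by
      intro i
      by_cases hi : i ∈ A
      · simp only [R, if_pos hi, Finset.card_singleton]
        omega
      · simp only [R, if_neg hi]
        refine (Finset.card_le_card_of_injOn (fun z : ℤ => (z : K)) (t := (Q i).roots.toFinset)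
          (fun z hz => by simpa using hz) Int.cast_injective.injOn).trans ?_
        refine (Multiset.toFinset_card_le _).trans ?_
        refine (Polynomial.card_roots' _).trans ?_
        exact (hQdeg i).trans (Nat.le_succ _)
    have hsub : (S.filter fun l => ρ l = m) ⊆ Fintype.piFinset R := by
      intro l hl
      obtain ⟨hlS, hlm⟩ := Finset.mem_filter.1 hl
      have hlB : l ∈ B := (Finset.mem_filter.1 hlS).2
      have heq : ∀ q ∈ A, l q = l0 q := by
        intro q hq
        have h3 : ρ l = ρ l0 := hlm.trans hl0m.symm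
        exact congrFun h3 ⟨q, hq⟩
      rw [Fintype.mem_piFinset]
      intro i
      by_cases hi : i ∈ A
      · simp only [R, if_pos hi, Finset.mem_singleton]
        exact heq i hi
      · simp only [R, if_neg hi, Finset.mem_preimage, Multiset.mem_toFinset]
        rw [Polynomial.mem_roots (hQ0 i hi), Polynomial.IsRoot.def]
        have h3 := hz i hi l hlB
        rw [map_sum] at h3
        simp only [Q, Polynomial.eval_finsetSum, Polynomial.eval_monomial]
        rw [← h3]
        refine Finset.sum_congr rfl fun j _ => ?_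
        rw [map_mul, map_pow, eval_X, mul_comm]
        congr 1
        refine eval_congr_vars _ A (hv i hi j) _ _ fun q hq => ?_
        rw [heq q hq]
    refine (Finset.card_le_card hsub).trans ?_
    rw [Fintype.card_piFinset]
    exact Finset.prod_le_prod (fun _ _ => Nat.zero_le _) fun i _ => hRcard i

omit [Field K] [CharZero K] in
theorem cnt_le_add (B : Set (σ → ℤ)) (B0 : Set (σ → ℤ)) (s : Finset σ) (Bi : σ → Set (σ → ℤ))
    (h : B ⊆ B0 ∪ ⋃ i ∈ s, Bi i) (H : ℕ) : cnt B H ≤ cnt B0 H + ∑ i ∈ s, cnt (Bi i) H := by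
  classical
  unfold cnt
  have h1 : ((box σ H).filter fun l => l ∈ B) ⊆ ((box σ H).filter fun l => l ∈ B0) ∪
      s.biUnion fun i => (box σ H).filter fun l => l ∈ Bi i := by
    intro l hl
    obtain ⟨hl1, hl2⟩ := Finset.mem_filter.1 hl
    rcases h hl2 with h2 | h2
    · exact Finset.mem_union_left _ (Finset.mem_filter.2 ⟨hl1, h2⟩)
    · rw [Set.mem_iUnion₂] at h2
      obtain ⟨i, hi, h3⟩ := h2
      exact Finset.mem_union_right _ (Finset.mem_biUnion.2 ⟨i, hi, Finset.mem_filter.2 ⟨hl1, h3⟩⟩)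
  exact (Finset.card_le_card h1).trans ((Finset.card_union_le _ _).trans
    (Nat.add_le_add_left Finset.card_biUnion_le _))

/-- the counting theorem -/
theorem cnt_le (m : ℕ) : ∀ B : Set (σ → ℤ), (∀ A : Finset σ, A.card = m → Cov K B A) →
    ∃ C : ℕ, ∀ H : ℕ, cnt B H * (2 * H + 1) ≤ C * (2 * H + 1) ^ m := by
  classical
  induction m with
  | zero =>
    intro B hB
    obtain ⟨f, hf, hfv, hfB⟩ := hB ∅ rfl
    have hBe : B = ∅ := by
      rw [Set.eq_empty_iff_forall_notMem]
      intro l hl
      have h1 := hfB l hl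
      obtain ⟨c, rfl⟩ : ∃ c, f = C c := ⟨_, vars_eq_empty_iff_eq_C.1 (Finset.subset_empty.1 hfv)⟩
      rw [eval_C] at h1
      exact hf (by rw [h1, map_zero])
    refine ⟨0, fun H => ?_⟩
    rw [hBe, cnt]
    simp
  | succ m ih =>
    have key : ∀ n : ℕ, ∀ (B : Set (σ → ℤ)) (𝒢 : Finset (Finset σ)),
        (∀ A ∈ 𝒢, A.card = m ∧ Cov K B A) →
        ((Finset.powersetCard m Finset.univ \ 𝒢).card = n) →
        (∀ A : Finset σ, A.card = m + 1 → Cov K B A) →
        ∃ C : ℕ, ∀ H : ℕ, cnt B H * (2 * H + 1) ≤ C * (2 * H + 1) ^ (m + 1) := by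
      intro n
      induction n with
      | zero =>
        intro B 𝒢 h𝒢 hn _
        rw [Finset.card_eq_zero, Finset.sdiff_eq_empty_iff_subset] at hn
        obtain ⟨C, hC⟩ := ih B fun A hA =>
          (h𝒢 A (hn (Finset.mem_powersetCard.2 ⟨Finset.subset_univ _, hA⟩))).2
        refine ⟨C, fun H => (hC H).trans ?_⟩
        exact Nat.mul_le_mul_left _ (Nat.pow_le_pow_right (by omega) (Nat.le_succ m))
      | succ n ihn =>
        intro B 𝒢 h𝒢 hn hB
        have hne : (Finset.powersetCard m Finset.univ \ 𝒢).Nonempty := by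
          rw [← Finset.card_pos, hn]
          omega
        obtain ⟨A, hA⟩ := hne
        obtain ⟨hA1, hA2⟩ := Finset.mem_sdiff.1 hA
        have hAc : A.card = m := (Finset.mem_powersetCard.1 hA1).2
        -- split the polynomials
        have h1 : ∀ i ∉ A, ∃ (D : ℕ) (h : ℕ → MvPolynomial σ K), (∀ j, (h j).vars ⊆ A) ∧
            Van K B (∑ j ∈ Finset.range (D + 1), X i ^ j * h j) ∧ ∃ j ≤ D, h j ≠ 0 := by
          intro i hi
          obtain ⟨f, hf, hfv, hfB⟩ := hB (insert i A) (by rw [Finset.card_insert_of_notMem hi, hAc])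
          obtain ⟨D, h, h2, h3, h4⟩ := split_var f hf i A hfv hi
          exact ⟨D, h, h2, h3 ▸ hfB, h4⟩
        choose! D h h2 h3 j0 h4 h5 using h1
        let g : σ → MvPolynomial σ K := fun i => h i (j0 i)
        let B0 : Set (σ → ℤ) := {l ∈ B | ∀ i ∉ A, eval (fun q => ((l q : ℤ) : K)) (g i) ≠ 0}
        let Bi : σ → Set (σ → ℤ) := fun i => {l ∈ B | eval (fun q => ((l q : ℤ) : K)) (g i) = 0}
        obtain ⟨C0, hC0⟩ := cnt_fiber B0 A D h h2 (fun i hi l hl => h3 i hi l hl.1)
          (fun i hi l hl => ⟨j0 i, h4 i hi, hl.2 i hi⟩)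
        have hBi : ∀ i, ∃ C : ℕ, i ∈ Aᶜ →
            ∀ H : ℕ, cnt (Bi i) H * (2 * H + 1) ≤ C * (2 * H + 1) ^ (m + 1) := by
          intro i
          by_cases hi : i ∈ Aᶜ
          · have hiA : i ∉ A := Finset.mem_compl.1 hi
            obtain ⟨C, hC⟩ := ihn (Bi i) (insert A 𝒢) (by
              intro A' hA'
              rcases Finset.mem_insert.1 hA' with rfl | hA'
              · exact ⟨hAc, g i, h5 i hiA, h2 i hiA _, fun l hl => hl.2⟩
              · exact ⟨(h𝒢 A' hA').1, (h𝒢 A' hA').2.mono fun l hl => hl.1⟩) (by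
              rw [Finset.sdiff_insert, Finset.card_erase_of_mem hA, hn]
              rfl) (fun A' hA' => (hB A' hA').mono fun l hl => hl.1)
            exact ⟨C, fun _ => hC⟩
          · exact ⟨0, fun h => absurd h hi⟩
        choose Ci hCi using hBi
        refine ⟨C0 + ∑ i ∈ Aᶜ, Ci i, fun H => ?_⟩
        have h6 := cnt_le_add B B0 Aᶜ Bi (by
          intro l hl
          by_cases hl0 : ∀ i ∉ A, eval (fun q => ((l q : ℤ) : K)) (g i) ≠ 0
          · exact Or.inl ⟨hl, hl0⟩
          · push Not at hl0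
            obtain ⟨i, hi, hz⟩ := hl0
            refine Or.inr ?_
            rw [Set.mem_iUnion₂]
            exact ⟨i, Finset.mem_compl.2 hi, hl, hz⟩) H
        calc cnt B H * (2 * H + 1) ≤ (cnt B0 H + ∑ i ∈ Aᶜ, cnt (Bi i) H) * (2 * H + 1) :=
              Nat.mul_le_mul_right _ h6
          _ = cnt B0 H * (2 * H + 1) + ∑ i ∈ Aᶜ, cnt (Bi i) H * (2 * H + 1) := by
              rw [add_mul, Finset.sum_mul]
          _ ≤ C0 * (2 * H + 1) ^ (m + 1) + ∑ i ∈ Aᶜ, Ci i * (2 * H + 1) ^ (m + 1) := by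
              refine Nat.add_le_add ?_ (Finset.sum_le_sum fun i hi => hCi i hi H)
              calc cnt B0 H * (2 * H + 1) ≤ C0 * (2 * H + 1) ^ A.card * (2 * H + 1) :=
                    Nat.mul_le_mul_right _ (hC0 H)
                _ = C0 * (2 * H + 1) ^ (m + 1) := by rw [hAc, pow_succ]; ring
          _ = (C0 + ∑ i ∈ Aᶜ, Ci i) * (2 * H + 1) ^ (m + 1) := by
              rw [add_mul, Finset.sum_mul]
    intro B hB
    exact key _ B ∅ (by simp) rfl hB

end Pool.Agent.GenTuple
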