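import Mathlib

/-!
# Generic tuples: no polynomial relation of small degree

Linear algebra over a field `K` of characteristic zero inside a field `F`.
-/

namespace Pool.Agent.GenTuple
open MvPolynomial

variable {K F : Type*} [Field K] [Field F] [Algebra K F]

/-- coordinate functionals for a linearly independent family -/
theorem functionals {ι : Type*} [DecidableEq ι] (v : ι → F) (hv : LinearIndependent K v) :
    ∃ φ : ι → (F →ₗ[K] K), ∀ l m, φ l (v m) = if l = m then 1 else 0 := by
  have hinj : LinearMap.ker (Finsupp.linearCombination K v) = ⊥ := linearIndependent_iff_ker.1 hv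
  obtain ⟨g, hg⟩ := LinearMap.exists_leftInverse_of_injective _ hinj
  refine ⟨fun l => (Finsupp.lapply l).comp g, fun l m => ?_⟩
  have h1 : g (v m) = Finsupp.single m 1 := by
    have h2 := congrArg (fun f => f (Finsupp.single m (1 : K))) hg
    simpa using h2
  simp only [LinearMap.comp_apply, h1, Finsupp.lapply_apply]
  rw [Finsupp.single_apply]
  simp only [eq_comm]

/-- openness of linear independence along a polynomial curve -/
theorem open_curve {ι : Type*} [Fintype ι] (h : ι → Polynomial F)
    (h0 : LinearIndependent K (fun i => (h i).coeff 0)) :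
    ∃ p : Polynomial K, p ≠ 0 ∧ ∀ ε : K, p.eval ε ≠ 0 →
      LinearIndependent K (fun i => (h i).eval (algebraMap K F ε)) := by
  classical
  obtain ⟨φ, hφ⟩ := functionals _ h0
  let A : Matrix ι ι (Polynomial K) := fun l m =>
    ∑ n ∈ Finset.range ((h m).natDegree + 1), Polynomial.monomial n (φ l ((h m).coeff n))
  have hA : ∀ l m (ε : K), (A l m).eval ε = φ l ((h m).eval (algebraMap K F ε)) := by
    intro l m ε
    simp only [A, Polynomial.eval_finsetSum, Polynomial.eval_monomial]
    rw [Polynomial.eval_eq_sum_range, map_sum]
    refine Finset.sum_congr rfl fun n _ => ?_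
    rw [← map_pow, mul_comm ((h m).coeff n), ← Algebra.smul_def, LinearMap.map_smul, smul_eq_mul,
      mul_comm]
  have hdet : ∀ ε : K, A.det.eval ε = (Matrix.of fun l m => (A l m).eval ε).det := by
    intro ε
    have := RingHom.map_det (Polynomial.evalRingHom ε) A
    simpa [Matrix.map] using this
  refine ⟨A.det, ?_, ?_⟩
  · intro hz
    have h1 := hdet 0
    rw [hz, Polynomial.eval_zero] at h1
    have h2 : (Matrix.of fun l m => (A l m).eval 0) = (1 : Matrix ι ι K) := by
      ext l m
      rw [Matrix.of_apply, hA, map_zero, ← Polynomial.coeff_zero_eq_eval_zero, hφ, Matrix.one_apply]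
    rw [h2, Matrix.det_one] at h1
    exact zero_ne_one h1
  · intro ε hε
    rw [hdet] at hε
    rw [Fintype.linearIndependent_iff]
    intro c hc
    have h3 : (Matrix.of fun l m => (A l m).eval ε).mulVec c = 0 := by
      funext l
      have h4 := congrArg (φ l) hc
      rw [map_sum, map_zero] at h4
      simp only [Matrix.mulVec, dotProduct, Matrix.of_apply, hA, Pi.zero_apply]
      rw [← h4]
      refine Finset.sum_congr rfl fun m _ => ?_
      rw [LinearMap.map_smul, smul_eq_mul, mul_comm]
    have h5 := Matrix.eq_zero_of_mulVec_eq_zero hε h3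
    intro i
    exact congrFun h5 i

/-- openness of linear independence for polynomial families in several variables -/
theorem open_multi {ι σ : Type*} [Fintype ι] (h : ι → MvPolynomial σ F) (lam : σ → K)
    (h0 : LinearIndependent K (fun i => eval (fun s => algebraMap K F (lam s)) (h i))) :
    ∃ D : MvPolynomial σ K, D ≠ 0 ∧ D.totalDegree ≤ ∑ i, (h i).totalDegree ∧
      ∀ mu : σ → K, eval mu D ≠ 0 →
        LinearIndependent K (fun i => eval (fun s => algebraMap K F (mu s)) (h i)) := by
  classical
  obtain ⟨φ, hφ⟩ := functionals _ h0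
  let A : Matrix ι ι (MvPolynomial σ K) := fun l m =>
    ∑ n ∈ (h m).support, monomial n (φ l ((h m).coeff n))
  have hA : ∀ l m (mu : σ → K), eval mu (A l m) =
      φ l (eval (fun s => algebraMap K F (mu s)) (h m)) := by
    intro l m mu
    simp only [A, map_sum, eval_monomial]
    rw [eval_eq, map_sum]
    refine Finset.sum_congr rfl fun n _ => ?_
    have e1 : (∏ i ∈ n.support, algebraMap K F (mu i) ^ n i) =
        algebraMap K F (n.prod fun i e => mu i ^ e) := by
      rw [Finsupp.prod, map_prod]
      simp
    rw [e1, mul_comm ((h m).coeff n), ← Algebra.smul_def, LinearMap.map_smul, smul_eq_mul,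
      mul_comm]
  have hdeg : ∀ l m, (A l m).totalDegree ≤ (h m).totalDegree := by
    intro l m
    refine (totalDegree_finsetSum _ _).trans (Finset.sup_le fun n hn => ?_)
    refine (totalDegree_monomial_le _ _).trans ?_
    exact le_totalDegree hn
  have hdet : ∀ mu : σ → K, eval mu A.det = (Matrix.of fun l m => eval mu (A l m)).det := by
    intro mu
    have := RingHom.map_det (eval mu) A
    simpa [Matrix.map] using this
  refine ⟨A.det, ?_, ?_, ?_⟩
  · intro hz
    have h1 := hdet lam
    rw [hz, map_zero] at h1
    have h2 : (Matrix.of fun l m => eval lam (A l m)) = (1 : Matrix ι ι K) := by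
      ext l m
      rw [Matrix.of_apply, hA, hφ, Matrix.one_apply]
    rw [h2, Matrix.det_one] at h1
    exact zero_ne_one h1
  · rw [Matrix.det_apply]
    refine (totalDegree_finsetSum _ _).trans (Finset.sup_le fun τ _ => ?_)
    refine (totalDegree_smul_le _ _).trans ?_
    refine (totalDegree_finsetProd _ _).trans ?_
    exact Finset.sum_le_sum fun i _ => hdeg _ _
  · intro mu hmu
    rw [hdet] at hmu
    rw [Fintype.linearIndependent_iff]
    intro c hc
    have h3 : (Matrix.of fun l m => eval mu (A l m)).mulVec c = 0 := by
      funext l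
      have h4 := congrArg (φ l) hc
      rw [map_sum, map_zero] at h4
      simp only [Matrix.mulVec, dotProduct, Matrix.of_apply, hA, Pi.zero_apply]
      rw [← h4]
      refine Finset.sum_congr rfl fun m _ => ?_
      rw [LinearMap.map_smul, smul_eq_mul, mul_comm]
    have h5 := Matrix.eq_zero_of_mulVec_eq_zero hmu h3
    intro i
    exact congrFun h5 i

end Pool.Agent.GenTuple
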