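import Pool.Agent.GenTuple.Gen

/-!
# Counting the exceptional integer matrices
-/

namespace Pool.Agent.GenTuple
open MvPolynomial

variable {K F : Type*} [Field K] [Field F] [Algebra K F]
variable {X T J : Type*} [Fintype X] [Fintype T] [Fintype J] [DecidableEq X] [DecidableEq T]
  [DecidableEq J]

/-- the generic point -/
noncomputable def gpt (x : X → F) (c : T → F) (t : T → J → F) :
    X ⊕ T → MvPolynomial (T × J) F :=
  Sum.elim (fun a => C (x a)) fun i => C (c i) + ∑ j, C (t i j) * MvPolynomial.X (i, j)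

theorem eval_gpt (x : X → F) (c : T → F) (t : T → J → F) (mu : T × J → K) (l : X ⊕ T) :
    eval (fun s => algebraMap K F (mu s)) (gpt x c t l) = pt x c t mu l := by
  rcases l with a | i
  · simp [gpt, pt]
  · simp only [gpt, pt, Sum.elim_inr, map_add, eval_C, map_sum, map_mul, eval_X]
    congr 1
    exact Finset.sum_congr rfl fun j _ => mul_comm _ _

theorem totalDegree_gpt (x : X → F) (c : T → F) (t : T → J → F) (l : X ⊕ T) :
    (gpt x c t l).totalDegree ≤ 1 := by
  rcases l with a | i
  · simp [gpt]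
  · simp only [gpt, Sum.elim_inr]
    refine (totalDegree_add _ _).trans (max_le ?_ ?_)
    · simp
    · refine (totalDegree_finsetSum _ _).trans (Finset.sup_le fun j _ => ?_)
      refine (totalDegree_mul _ _).trans ?_
      rw [totalDegree_C, totalDegree_X]

theorem exists_disc [CharZero K] [CharZero F] [FiniteDimensional ℚ K] (x : X → F) (c : T → F)
    (t : T → J → F) (d : ℕ)
    (hx : ∀ P : MvPolynomial X K, P.totalDegree ≤ d → aeval x P = 0 → P = 0)
    (ht : ∀ i, LinearIndependent ℚ (t i))
    (hr : Module.finrank ℚ K * (lowDeg (X ⊕ T) d).card ≤ Fintype.card J) :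
    ∃ D : MvPolynomial (T × J) K, D ≠ 0 ∧ D.totalDegree ≤ (lowDeg (X ⊕ T) d).card * d ∧
      ∀ mu : T × J → K, eval mu D ≠ 0 →
        ∀ P : MvPolynomial (X ⊕ T) K, P.totalDegree ≤ d → aeval (pt x c t mu) P = 0 → P = 0 := by
  obtain ⟨lam, hlam⟩ := exist x c t d hx ht hr
  let h : lowDeg (X ⊕ T) d → MvPolynomial (T × J) F := fun α => ∏ l, gpt x c t l ^ α.1 l
  have hev : ∀ (mu : T × J → K) (α : lowDeg (X ⊕ T) d),
      eval (fun s => algebraMap K F (mu s)) (h α) = mon (pt x c t mu) α.1 := by
    intro mu α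
    simp only [h, map_prod, map_pow, eval_gpt]
    rw [mon, Finsupp.prod_fintype _ _ (fun _ => pow_zero _)]
  have h0 : LinearIndependent K (fun α => eval (fun s => algebraMap K F (lam s)) (h α)) := by
    simp only [hev]
    exact hlam
  obtain ⟨D, hD0, hDdeg, hD⟩ := open_multi h lam h0
  refine ⟨D, hD0, hDdeg.trans ?_, fun mu hmu => ?_⟩
  · have h1 : ∀ α : lowDeg (X ⊕ T) d, (h α).totalDegree ≤ d := by
      intro α
      refine (totalDegree_finsetProd _ _).trans ?_
      refine le_trans (Finset.sum_le_sum fun l _ => ?_) (mem_lowDeg.1 α.2)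
      refine (totalDegree_pow _ _).trans ?_
      calc α.1 l * (gpt x c t l).totalDegree ≤ α.1 l * 1 :=
            Nat.mul_le_mul_left _ (totalDegree_gpt x c t l)
        _ = α.1 l := mul_one _
    refine (Finset.sum_le_card_nsmul _ _ d fun α _ => h1 α).trans ?_
    rw [Finset.card_univ, Fintype.card_coe, smul_eq_mul]
  · have h1 := hD mu hmu
    simp only [hev] at h1
    exact (linInd_iff d _).1 h1

theorem count [CharZero K] [CharZero F] [FiniteDimensional ℚ K] (x : X → F) (c : T → F)
    (t : T → J → F) (d : ℕ)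
    (hx : ∀ P : MvPolynomial X K, P.totalDegree ≤ d → aeval x P = 0 → P = 0)
    (ht : ∀ i, LinearIndependent ℚ (t i))
    (hr : Module.finrank ℚ K * (Fintype.card X + Fintype.card T + d).choose d ≤ Fintype.card J)
    (H : ℕ) :
    Set.ncard {M : T → J → ℤ | (∀ i j, |M i j| ≤ H) ∧ ∃ P : MvPolynomial (X ⊕ T) K, P ≠ 0 ∧
      P.totalDegree ≤ d ∧ aeval (Sum.elim x fun i => c i + ∑ j, (M i j : F) * t i j) P = 0} *
      (2 * H + 1) ≤ (Fintype.card X + Fintype.card T + d).choose d * d *
        (2 * H + 1) ^ (Fintype.card T * Fintype.card J) := by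
  classical
  have hcard : (lowDeg (X ⊕ T) d).card ≤ (Fintype.card X + Fintype.card T + d).choose d := by
    have := card_lowDeg_le (X ⊕ T) d
    rwa [Fintype.card_sum] at this
  obtain ⟨D, hD0, hDdeg, hD⟩ := exists_disc x c t d hx ht
    ((Nat.mul_le_mul_left _ hcard).trans hr)
  set n := Fintype.card T * Fintype.card J with hn
  have hcardTJ : Fintype.card (T × J) = n := by rw [Fintype.card_prod]
  let e : T × J ≃ Fin n := Fintype.equivFinOfCardEq hcardTJ
  set D' : MvPolynomial (Fin n) K := renameEquiv K e D with hD'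
  have hD'0 : D' ≠ 0 := by
    rw [hD']
    intro h
    exact hD0 ((renameEquiv K e).injective (by rw [h, map_zero]))
  have hD'deg : D'.totalDegree ≤ (Fintype.card X + Fintype.card T + d).choose d * d := by
    rw [hD', totalDegree_renameEquiv]
    exact hDdeg.trans (Nat.mul_le_mul_right _ hcard)
  let S : Finset K := (Finset.Icc (-(H : ℤ)) H).image fun z : ℤ => (z : K)
  have hS : S.card = 2 * H + 1 := by
    rw [Finset.card_image_of_injective _ Int.cast_injective, Int.card_Icc]
    omega
  have hSZ := schwartz_zippel_totalDegree hD'0 S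
  rw [hS] at hSZ
  set B : Finset (Fin n → K) := {f ∈ Fintype.piFinset fun _ => S | eval f D' = 0} with hB
  -- the exceptional set maps into `B`
  have hle : Set.ncard {M : T → J → ℤ | (∀ i j, |M i j| ≤ H) ∧
      ∃ P : MvPolynomial (X ⊕ T) K, P ≠ 0 ∧ P.totalDegree ≤ d ∧
      aeval (Sum.elim x fun i => c i + ∑ j, (M i j : F) * t i j) P = 0} ≤ B.card := by
    rw [← Set.ncard_coe_finset B]
    refine Set.ncard_le_ncard_of_injOn
      (fun M l => ((M (e.symm l).1 (e.symm l).2 : ℤ) : K)) ?_ ?_ (Finset.finite_toSet B)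
    · rintro M ⟨hM, P, hP0, hPd, hP⟩
      rw [Finset.mem_coe, hB, Finset.mem_filter, Fintype.mem_piFinset]
      refine ⟨fun l => ?_, ?_⟩
      · refine Finset.mem_image.2 ⟨_, ?_, rfl⟩
        rw [Finset.mem_Icc]
        exact abs_le.1 (hM _ _)
      · by_contra hne
        let mu : T × J → K := fun q => ((M q.1 q.2 : ℤ) : K)
        have h1 : eval mu D ≠ 0 := by
          intro h2
          apply hne
          rw [hD', renameEquiv_apply, eval_rename]
          rw [← h2]
          congr 1
          congr 1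
          funext q
          simp [mu]
        have h2 := hD mu h1 P hPd (by
          rw [← hP]
          congr 2
          funext l
          rcases l with a | i
          · rfl
          · simp [pt, mu])
        exact hP0 h2
    · intro M _ M' _ hMM
      funext i j
      have := congrFun hMM (e (i, j))
      simpa using this
  have hpos : (0 : ℚ≥0) < ((2 * H + 1 : ℕ) : ℚ≥0) := by
    exact_mod_cast Nat.succ_pos _
  have h3 : (B.card : ℚ≥0) * ((2 * H + 1 : ℕ) : ℚ≥0) ≤
      (D'.totalDegree : ℚ≥0) * ((2 * H + 1 : ℕ) : ℚ≥0) ^ n := by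
    rw [div_le_div_iff₀ (by positivity) hpos] at hSZ
    exact hSZ
  have h4 : B.card * (2 * H + 1) ≤ D'.totalDegree * (2 * H + 1) ^ n := by
    exact_mod_cast h3
  calc _ ≤ B.card * (2 * H + 1) := Nat.mul_le_mul_right _ hle
    _ ≤ D'.totalDegree * (2 * H + 1) ^ n := h4
    _ ≤ _ := Nat.mul_le_mul_right _ hD'deg

end Pool.Agent.GenTuple
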