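import Pool.Agent.GenTuple.Twist

/-!
# The transcendence degree of the coordinates of an exceptional point
-/

namespace Pool.Agent.GenTuple
open MvPolynomial TensorProduct

section
variable {K E F G : Type} [Field K] [Field E] [Field F] [Field G] [Algebra K E] [Algebra K F]
  [Algebra K G] [Algebra E G] [Algebra F G] [IsScalarTower K E G] [IsScalarTower K F G]

/-- linear disjointness of `E` and `F` over `K` in `G` -/
def Disj (K E F G : Type) [Field K] [Field E] [Field F] [Field G] [Algebra K F]
    [Algebra E G] [Algebra F G] : Prop :=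
  ∀ (κ : Type) [Fintype κ] (f : κ → F), LinearIndependent K f →
    LinearIndependent E (fun j => algebraMap F G (f j))

theorem Disj.inf (h : Disj K E F G) {κ : Type} (f : κ → F) (hf : LinearIndependent K f) :
    LinearIndependent E (fun j => algebraMap F G (f j)) := by
  rw [linearIndependent_iff']
  intro s g hg i hi
  have h1 : LinearIndependent K (fun j : s => f j) := hf.comp _ Subtype.val_injective
  have h2 := h s _ h1
  rw [Fintype.linearIndependent_iff] at h2
  exact h2 (fun j => g j) (by
    rw [Finset.sum_coe_sort s (fun j => g j • algebraMap F G (f j))]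
    exact hg) ⟨i, hi⟩

/-- the multiplication map -/
noncomputable def mu (K E F G : Type) [Field K] [Field E] [Field F] [Field G] [Algebra K E]
    [Algebra K F] [Algebra K G] [Algebra E G] [Algebra F G] [IsScalarTower K E G]
    [IsScalarTower K F G] : E ⊗[K] F →ₐ[E] G :=
  Algebra.TensorProduct.lift (Algebra.ofId E G) (IsScalarTower.toAlgHom K F G)
    (fun _ _ => Commute.all _ _)

theorem mu_tmul (e : E) (f : F) :
    mu K E F G (e ⊗ₜ f) = algebraMap E G e * algebraMap F G f := by
  simp [mu, Algebra.ofId_apply]

theorem mu_injective (h : Disj K E F G) : Function.Injective (mu K E F G) := by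
  let b := Module.Basis.ofVectorSpace K F
  let B := Algebra.TensorProduct.basis E b
  have h1 : LinearIndependent E (fun i => (mu K E F G).toLinearMap (B i)) := by
    have h2 := h.inf (fun i => b i) b.linearIndependent
    have h3 : (fun i => (mu K E F G).toLinearMap (B i)) = fun i => algebraMap F G (b i) := by
      funext i
      simp only [B, Algebra.TensorProduct.basis_apply, AlgHom.toLinearMap_apply, mu_tmul, map_one,
        one_mul]
    rw [h3]
    exact h2
  have h2 : (mu K E F G).toLinearMap =
      (Finsupp.linearCombination E (fun i => (mu K E F G).toLinearMap (B i))).comp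
        B.repr.toLinearMap := by
    refine B.ext fun i => ?_
    simp
  intro a b hab
  have hab' : (mu K E F G).toLinearMap a = (mu K E F G).toLinearMap b := hab
  rw [h2] at hab'
  exact B.repr.injective (h1 hab')

variable {X T J : Type} [Fintype X] [Fintype T] [Fintype J] [DecidableEq X] [DecidableEq T]
  [DecidableEq J]

/-- the point in the tensor product -/
noncomputable def tpt (x : X → F) (c : T → F) (t : T → J → F) (lam : T × J → E) :
    X ⊕ T → E ⊗[K] F :=
  Sum.elim (fun a => 1 ⊗ₜ x a) fun i => 1 ⊗ₜ c i + ∑ j, lam (i, j) ⊗ₜ t i j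

theorem mu_tpt (x : X → F) (c : T → F) (t : T → J → F) (lam : T × J → E) (l : X ⊕ T) :
    mu K E F G (tpt (K := K) x c t lam l) = pt (K := E) (fun a => algebraMap F G (x a))
      (fun i => algebraMap F G (c i)) (fun i j => algebraMap F G (t i j)) lam l := by
  rcases l with a | i
  · simp [tpt, pt, mu_tmul]
  · simp [tpt, pt, mu_tmul]

/-- the differentiated relation -/
theorem diff_rel (h : Disj K E F G) (x : X → F) (c : T → F) (t : T → J → F)
    (lam : T × J → E) (δ : Derivation K E E) (P : MvPolynomial (X ⊕ T) E)
    (hP : aeval (pt (K := E) (fun a => algebraMap F G (x a))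
      (fun i => algebraMap F G (c i)) (fun i j => algebraMap F G (t i j)) lam) P = 0) :
    aeval (pt (K := E) (fun a => algebraMap F G (x a)) (fun i => algebraMap F G (c i))
      (fun i j => algebraMap F G (t i j)) lam) (dcoef δ P) +
    ∑ i, aeval (pt (K := E) (fun a => algebraMap F G (x a)) (fun i => algebraMap F G (c i))
      (fun i j => algebraMap F G (t i j)) lam) (pderiv (Sum.inr i) P) *
        ∑ j, algebraMap E G (δ (lam (i, j))) * algebraMap F G (t i j) = 0 := by
  set y := pt (K := E) (fun a => algebraMap F G (x a)) (fun i => algebraMap F G (c i))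
      (fun i j => algebraMap F G (t i j)) lam with hy
  have hmu : ∀ Q : MvPolynomial (X ⊕ T) E, mu K E F G (aeval (tpt (K := K) x c t lam) Q) =
      aeval y Q := by
    intro Q
    rw [← AlgHom.comp_apply, comp_aeval]
    congr 2
    funext l
    exact mu_tpt x c t lam l
  have h0 : aeval (tpt (K := K) x c t lam) P = 0 := by
    apply mu_injective h
    rw [hmu, hP, map_zero]
  have h1 := der_twist δ (tder (F := F) δ) (fun e => by
    rw [Algebra.TensorProduct.algebraMap_apply, Algebra.algebraMap_self_apply, tder_tmul,
      Algebra.TensorProduct.algebraMap_apply, Algebra.algebraMap_self_apply])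
    (tpt (K := K) x c t lam) P
  rw [h0, map_zero] at h1
  have h2 := congrArg (mu K E F G) h1
  rw [map_zero, map_add, hmu, map_sum, Fintype.sum_sum_type] at h2
  have h3 : ∀ a : X, mu K E F G (aeval (tpt (K := K) x c t lam) (pderiv (Sum.inl a) P) *
      tder (F := F) δ (tpt (K := K) x c t lam (Sum.inl a))) = 0 := by
    intro a
    have : tpt (K := K) x c t lam (Sum.inl a) = (1 : E) ⊗ₜ x a := rfl
    rw [this, tder_tmul, Derivation.map_one_eq_zero, TensorProduct.zero_tmul, mul_zero, map_zero]
  have h4 : ∀ i : T, mu K E F G (aeval (tpt (K := K) x c t lam) (pderiv (Sum.inr i) P) *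
      tder (F := F) δ (tpt (K := K) x c t lam (Sum.inr i))) =
      aeval y (pderiv (Sum.inr i) P) *
        ∑ j, algebraMap E G (δ (lam (i, j))) * algebraMap F G (t i j) := by
    intro i
    have : tpt (K := K) x c t lam (Sum.inr i) =
        (1 : E) ⊗ₜ c i + ∑ j, lam (i, j) ⊗ₜ t i j := rfl
    rw [this, map_mul, hmu, map_add, map_sum, tder_tmul, Derivation.map_one_eq_zero,
      TensorProduct.zero_tmul, zero_add, map_sum]
    simp only [tder_tmul, mu_tmul]
  rw [Finset.sum_congr rfl fun a _ => h3 a, Finset.sum_congr rfl fun i _ => h4 i,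
    Finset.sum_const_zero, zero_add] at h2
  exact h2.symm

theorem mul_count (n t j r : ℕ) (h : n ≤ (t - 1) * j + r) (ht : 1 ≤ t) :
    n + j ≤ t * j + r := by
  obtain ⟨t, rfl⟩ : ∃ t', t = t' + 1 := ⟨t - 1, by omega⟩
  rw [Nat.add_sub_cancel] at h
  rw [add_mul, one_mul]
  omega

/-- the dimension bound -/
theorem dim_bound [CharZero K] (h : Disj K E F G) (x : X → F) (c : T → F) (t : T → J → F)
    (d : ℕ) (hx : ∀ P : MvPolynomial X K, P.totalDegree ≤ d → aeval x P = 0 → P = 0)
    (ht : ∀ i, LinearIndependent K (t i)) (lam : T × J → E) (A : Finset (T × J))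
    (hA : AlgebraicIndependent K (fun a : A => lam a))
    (hP : ∃ P : MvPolynomial (X ⊕ T) E, P ≠ 0 ∧ P.totalDegree ≤ d ∧
      aeval (pt (K := E) (fun a => algebraMap F G (x a)) (fun i => algebraMap F G (c i))
        (fun i j => algebraMap F G (t i j)) lam) P = 0) :
    A.card + Fintype.card J < Fintype.card T * Fintype.card J + (lowDeg (X ⊕ T) d).card := by
  classical
  have hCE : CharZero E := charZero_of_injective_algebraMap (algebraMap K E).injective
  set y := pt (K := E) (fun a => algebraMap F G (x a)) (fun i => algebraMap F G (c i))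
      (fun i j => algebraMap F G (t i j)) lam with hy
  -- no relations of degree `≤ d` between the `x` over `E`
  have hxE : ∀ P : MvPolynomial X E, P.totalDegree ≤ d →
      aeval (fun a => algebraMap F G (x a)) P = 0 → P = 0 := by
    rw [← linInd_iff] at hx ⊢
    have h1 := h _ _ hx
    have h2 : (fun α : lowDeg X d => mon (fun a => algebraMap F G (x a)) α.1) =
        fun α : lowDeg X d => algebraMap F G (mon x α.1) := by
      funext α
      rw [mon, mon, Finsupp.prod, Finsupp.prod, map_prod]
      simp
    rw [h2]
    exact h1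
  obtain ⟨P, i, hPd, hP0, hPi⟩ := exists_pderiv (fun a => algebraMap F G (x a)) _ d hxE hP
  set a := aeval y (pderiv (Sum.inr i) P) with ha
  have ha0 : a ≠ 0 := hPi
  set M := Sp E d y with hM
  have hMlt : Module.finrank E M < (lowDeg (X ⊕ T) d).card := by
    have h4 : Module.finrank E M ≤ (lowDeg (X ⊕ T) d).card := by
      rw [hM]
      unfold Sp
      refine (finrank_range_le_card (R := E)
        (fun α : lowDeg (X ⊕ T) d => mon y α.1)).trans ?_
      rw [Fintype.card_coe]
    refine lt_of_le_of_ne h4 fun h5 => ?_
    have h6 : LinearIndependent E (fun α : lowDeg (X ⊕ T) d => mon y α.1) := by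
      rw [linearIndependent_iff_card_eq_finrank_span, Fintype.card_coe]
      exact h5.symm
    rw [linInd_iff] at h6
    obtain ⟨P', h7, h8, h9⟩ := hP
    exact h7 (h6 P' h8 h9)
  -- the derivations
  have hder : ∀ b : A, ∃ D : Derivation K E E, ∀ b' : A, D (lam b') = if b' = b then 1 else 0 :=
    fun b => exists_der hA _
  choose D hD using hder
  -- the linear map
  let Φ : (A → E) →ₗ[E] (T × J → E) :=
    { toFun := fun v q => ∑ b, v b * D b (lam q)
      map_add' := fun v w => by
        funext q
        simp only [Pi.add_apply, add_mul, Finset.sum_add_distrib]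
      map_smul' := fun e v => by
        funext q
        simp only [Pi.smul_apply, smul_eq_mul, Finset.mul_sum, mul_assoc, RingHom.id_apply] }
  have hΦ : ∀ v q, Φ v q = ∑ b, v b * D b (lam q) := fun _ _ => rfl
  have hΦA : ∀ v (b : A), Φ v b = v b := by
    intro v b
    rw [hΦ, Finset.sum_eq_single b]
    · rw [hD, if_pos rfl, mul_one]
    · intro b' _ hb'
      rw [hD, if_neg (Ne.symm hb'), mul_zero]
    · intro h1
      exact absurd (Finset.mem_univ _) h1
  -- killing the other rows
  let R : (A → E) →ₗ[E] ({q : T × J // q.1 ≠ i} → E) :=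
    { toFun := fun v q => Φ v q.1
      map_add' := fun v w => by
        funext q
        rw [map_add]
        rfl
      map_smul' := fun e v => by
        funext q
        rw [map_smul]
        rfl }
  have hcardq : Fintype.card {q : T × J // q.1 ≠ i} = (Fintype.card T - 1) * Fintype.card J := by
    have e1 : {q : T × J // q.1 ≠ i} ≃ {i' : T // i' ≠ i} × J :=
      { toFun := fun q => (⟨q.1.1, q.2⟩, q.1.2)
        invFun := fun q => ⟨(q.1.1, q.2), q.1.2⟩
        left_inv := fun q => rfl
        right_inv := fun q => rfl }
    rw [Fintype.card_congr e1, Fintype.card_prod]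
    congr 1
    rw [Fintype.card_subtype_compl]
    simp
  have hker : A.card ≤ (Fintype.card T - 1) * Fintype.card J + Module.finrank E (LinearMap.ker R) := by
    have h1 := LinearMap.finrank_range_add_finrank_ker R
    rw [Module.finrank_fintype_fun_eq_card, Fintype.card_coe] at h1
    have h2 := Submodule.finrank_le (LinearMap.range R)
    rw [Module.finrank_fintype_fun_eq_card, hcardq] at h2
    omega
  -- the injection into `M`
  have hmem : ∀ v ∈ LinearMap.ker R, a * ∑ j, algebraMap E G (Φ v (i, j)) *
      algebraMap F G (t i j) ∈ M := by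
    intro v hv
    let δ : Derivation K E E := ∑ b, v b • D b
    have hδ : ∀ q, δ (lam q) = Φ v q := by
      intro q
      have h1 : δ (lam q) = ∑ b, (v b • D b) (lam q) := by
        have := congrFun (map_sum Derivation.coeFnAddMonoidHom (fun b => v b • D b)
          (Finset.univ : Finset A)) (lam q)
        rw [Finset.sum_apply] at this
        exact this
      rw [h1, hΦ]
      rfl
    have h2 := diff_rel h x c t lam δ P hP0
    have h3 : ∀ i' ∈ Finset.univ, i' ≠ i →
        aeval y (pderiv (Sum.inr i') P) *
          ∑ j, algebraMap E G (δ (lam (i', j))) * algebraMap F G (t i' j) = 0 := by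
      intro i' _ hi'
      have h4 : ∀ j, δ (lam (i', j)) = 0 := by
        intro j
        rw [hδ]
        have := congrFun (LinearMap.mem_ker.1 hv) ⟨(i', j), hi'⟩
        exact this
      rw [Finset.sum_eq_zero, mul_zero]
      intro j _
      rw [h4, map_zero, zero_mul]
    rw [← hy, Finset.sum_eq_single i h3 (fun h5 => absurd (Finset.mem_univ _) h5)] at h2
    simp only [hδ] at h2
    have h6 := eq_neg_of_add_eq_zero_right h2
    rw [ha, h6]
    exact Submodule.neg_mem _ (aeval_mem_span d y _ ((totalDegree_dcoef δ P).trans hPd))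
  let Ψ : LinearMap.ker R →ₗ[E] M :=
    { toFun := fun v => ⟨a * ∑ j, algebraMap E G (Φ v.1 (i, j)) * algebraMap F G (t i j),
        hmem v.1 v.2⟩
      map_add' := fun v w => by
        apply Subtype.ext
        simp only [Submodule.coe_add, map_add, Pi.add_apply, add_mul, Finset.sum_add_distrib,
          mul_add]
      map_smul' := fun e v => by
        apply Subtype.ext
        have h1 : ∀ j, Φ (e • v).1 (i, j) = e * Φ v.1 (i, j) := fun j => by
          rw [Submodule.coe_smul, map_smul]
          rfl
        simp only [h1, map_mul, RingHom.id_apply]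
        rw [Submodule.coe_smul, Algebra.smul_def]
        simp only [Finset.mul_sum]
        exact Finset.sum_congr rfl fun j _ => by ring }
  have hΨ : Function.Injective Ψ := by
    rw [← LinearMap.ker_eq_bot, LinearMap.ker_eq_bot']
    intro v hv
    have h1 : a * ∑ j, algebraMap E G (Φ v.1 (i, j)) * algebraMap F G (t i j) = 0 :=
      congrArg Subtype.val hv
    have h2 := (mul_eq_zero.1 h1).resolve_left ha0
    have h3 := h J (t i) (ht i)
    rw [Fintype.linearIndependent_iff] at h3
    have h4 := h3 (fun j => Φ v.1 (i, j)) (by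
      rw [← h2]
      exact Finset.sum_congr rfl fun j _ => by rw [Algebra.smul_def])
    have h5 : ∀ q, Φ v.1 q = 0 := by
      rintro ⟨i', j⟩
      by_cases hi' : i' = i
      · rw [hi']
        exact h4 j
      · exact congrFun (LinearMap.mem_ker.1 v.2) ⟨(i', j), hi'⟩
    apply Subtype.ext
    funext b
    rw [← hΦA v.1 b, h5]
    rfl
  have hle := LinearMap.finrank_le_finrank_of_injective hΨ
  have hT : 1 ≤ Fintype.card T := Fintype.card_pos_iff.2 ⟨i⟩
  have := mul_count _ _ _ _ hker hT
  omega

end

end Pool.Agent.GenTuple
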