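import Pool.Agent.GenTuple.Core

/-!
# Existence of a tuple without relations of small degree
-/

namespace Pool.Agent.GenTuple
open MvPolynomial

variable {K F : Type*} [Field K] [Field F] [Algebra K F]

/-- exponents of degree at most `d` -/
noncomputable def lowDeg (ι : Type*) [Fintype ι] [DecidableEq ι] (d : ℕ) : Finset (ι →₀ ℕ) :=
  (Finset.range (d + 1)).biUnion fun n => Finset.finsuppAntidiag Finset.univ n

theorem mem_lowDeg {ι : Type*} [Fintype ι] [DecidableEq ι] {d : ℕ} {α : ι →₀ ℕ} :
    α ∈ lowDeg ι d ↔ ∑ i, α i ≤ d := by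
  simp only [lowDeg, Finset.mem_biUnion, Finset.mem_range, Finset.mem_finsuppAntidiag]
  constructor
  · rintro ⟨n, hn, h1, _⟩
    exact (le_of_eq h1).trans (Nat.lt_succ_iff.1 hn)
  · intro h
    exact ⟨_, Nat.lt_succ_of_le h, rfl, Finset.subset_univ _⟩

theorem card_lowDeg_le (ι : Type*) [Fintype ι] [DecidableEq ι] (d : ℕ) :
    (lowDeg ι d).card ≤ (Fintype.card ι + d).choose d := by
  have h1 : (Finset.finsuppAntidiag (Finset.univ : Finset (Option ι)) d).card =
      (Fintype.card ι + d).choose d := by
    rw [Finset.card_finsuppAntidiag_nat_eq_choose, Finset.card_univ, Fintype.card_option]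
    congr 1
    omega
  rw [← h1]
  refine Finset.card_le_card_of_injOn
    (fun α => Finsupp.optionElim (d - ∑ i, α i) α) ?_ ?_
  · intro α hα
    have hα' := mem_lowDeg.1 hα
    simp only [Finset.mem_coe, Finset.mem_finsuppAntidiag, Finset.subset_univ,
      and_true, Fintype.sum_option]
    simp
    omega
  · intro α _ β _ hab
    ext i
    have := DFunLike.congr_fun hab (some i)
    simpa using this

/-- the value of a monomial -/
noncomputable def mon {ι : Type*} (y : ι → F) (α : ι →₀ ℕ) : F := α.prod fun i n => y i ^ n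

theorem aeval_eq_sum {ι : Type*} [Fintype ι] [DecidableEq ι] (d : ℕ) (y : ι → F)
    (P : MvPolynomial ι K) (hP : P.totalDegree ≤ d) :
    aeval y P = ∑ α ∈ lowDeg ι d, P.coeff α • mon y α := by
  have h1 : P.support ⊆ lowDeg ι d := by
    intro α hα
    rw [mem_lowDeg]
    have h2 := le_totalDegree hα
    rw [Finsupp.sum_fintype _ _ (fun _ => rfl)] at h2
    exact h2.trans hP
  rw [aeval_def, eval₂_eq']
  rw [← Finset.sum_subset h1]
  · refine Finset.sum_congr rfl fun α _ => ?_
    rw [mon, Finsupp.prod_fintype _ _ (fun _ => pow_zero _), Algebra.smul_def]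
  · intro α _ hα
    rw [notMem_support_iff.1 hα, zero_smul]

theorem aeval_mem_span {ι : Type*} [Fintype ι] [DecidableEq ι] (d : ℕ) (y : ι → F)
    (P : MvPolynomial ι K) (hP : P.totalDegree ≤ d) :
    aeval y P ∈ Submodule.span K (Set.range fun α : lowDeg ι d => mon y α.1) := by
  rw [aeval_eq_sum d y P hP]
  refine Submodule.sum_mem _ fun α hα => Submodule.smul_mem _ _ ?_
  exact Submodule.subset_span ⟨⟨α, hα⟩, rfl⟩

theorem linInd_iff {ι : Type*} [Fintype ι] [DecidableEq ι] (d : ℕ) (y : ι → F) :
    LinearIndependent K (fun α : lowDeg ι d => mon y α.1) ↔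
      ∀ P : MvPolynomial ι K, P.totalDegree ≤ d → aeval y P = 0 → P = 0 := by
  rw [Fintype.linearIndependent_iff]
  constructor
  · intro h P hP h0
    rw [aeval_eq_sum d y P hP, ← Finset.sum_coe_sort] at h0
    have h1 := h (fun α => P.coeff α.1) h0
    ext α
    rw [coeff_zero]
    by_cases hα : α ∈ P.support
    · have h2 : α ∈ lowDeg ι d := by
        rw [mem_lowDeg]
        have h2 := le_totalDegree hα
        rw [Finsupp.sum_fintype _ _ (fun _ => rfl)] at h2
        exact h2.trans hP
      exact h1 ⟨α, h2⟩
    · exact notMem_support_iff.1 hα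
  · intro h c hc
    set P : MvPolynomial ι K := ∑ α : lowDeg ι d, monomial α.1 (c α) with hPdef
    have hcoeff : ∀ α : lowDeg ι d, P.coeff α.1 = c α := by
      intro α
      rw [hPdef, coeff_sum, Finset.sum_eq_single α]
      · simp
      · intro β _ hβ
        rw [coeff_monomial, if_neg]
        intro h3
        exact hβ (Subtype.ext h3)
      · intro h3
        exact absurd (Finset.mem_univ _) h3
    have hdeg : P.totalDegree ≤ d := by
      rw [hPdef]
      refine (totalDegree_finsetSum _ _).trans (Finset.sup_le fun α _ => ?_)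
      refine (totalDegree_monomial_le _ _).trans ?_
      rw [Finsupp.sum_fintype _ _ (fun _ => rfl)]
      exact mem_lowDeg.1 α.2
    have h0 : aeval y P = 0 := by
      rw [aeval_eq_sum d y P hdeg, ← Finset.sum_coe_sort, ← hc]
      exact Finset.sum_congr rfl fun α _ => by rw [hcoeff]
    have hP := h P hdeg h0
    intro α
    rw [← hcoeff, hP, coeff_zero]

/-- chain rule -/
theorem derivative_aeval {ι : Type*} [Fintype ι] [DecidableEq ι] (Y : ι → Polynomial F)
    (P : MvPolynomial ι K) :
    Polynomial.derivative (aeval Y P) =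
      ∑ l, aeval Y (pderiv l P) * Polynomial.derivative (Y l) := by
  induction P using MvPolynomial.induction_on with
  | C a =>
    simp only [algHom_C, pderiv_C, map_zero, zero_mul, Finset.sum_const_zero]
    rw [IsScalarTower.algebraMap_apply K F (Polynomial F)]
    exact Polynomial.derivative_C
  | add p q hp hq =>
    simp only [map_add, hp, hq, add_mul, Finset.sum_add_distrib]
  | mul_X p n hp =>
    have hX : ∑ l, aeval Y (pderiv l (X n : MvPolynomial ι K)) * Polynomial.derivative (Y l) =
        Polynomial.derivative (Y n) := by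
      rw [Finset.sum_eq_single n]
      · rw [pderiv_X_self, map_one, one_mul]
      · intro l _ hl
        rw [pderiv_X_of_ne (Ne.symm hl), map_zero, zero_mul]
      · intro h
        exact absurd (Finset.mem_univ _) h
    simp only [map_mul, aeval_X, Polynomial.derivative_mul, hp, Derivation.leibniz, smul_eq_mul,
      map_add, add_mul, Finset.sum_add_distrib]
    have h1 : ∑ l, aeval Y p * aeval Y (pderiv l (X n : MvPolynomial ι K)) *
        Polynomial.derivative (Y l) = aeval Y p * Polynomial.derivative (Y n) := by
      rw [← hX, Finset.mul_sum]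
      exact Finset.sum_congr rfl fun l _ => by ring
    have h2 : ∑ l, Y n * aeval Y (pderiv l p) * Polynomial.derivative (Y l) =
        (∑ l, aeval Y (pderiv l p) * Polynomial.derivative (Y l)) * Y n := by
      rw [Finset.sum_mul]
      exact Finset.sum_congr rfl fun l _ => by ring
    rw [h1, h2]
    ring

end Pool.Agent.GenTuple
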