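import Pool.Agent.GenTuple.Ultra
import Pool.Agent.GenTuple.Comb

/-!
# Exceptional integer matrices are rare
-/

namespace Pool.Agent.GenTuple
open MvPolynomial

section
variable {F : Type} [Field F] [CharZero F]
variable {X T J : Type} [Fintype X] [Fintype T] [Fintype J] [DecidableEq X] [DecidableEq T]
  [DecidableEq J]

/-- the exceptional integer points -/
def Bad (x : X → F) (c : T → F) (t : T → J → F) (d : ℕ) : Set (T × J → ℤ) :=
  {l | ∃ P : MvPolynomial (X ⊕ T) ℚ, P ≠ 0 ∧ P.totalDegree ≤ d ∧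
    aeval (pt x c t (fun q => ((l q : ℤ) : ℚ))) P = 0}

theorem bad_cov (x : X → F) (c : T → F) (t : T → J → F) (d : ℕ)
    (hx : ∀ P : MvPolynomial X ℚ, P.totalDegree ≤ d → aeval x P = 0 → P = 0)
    (ht : ∀ i, LinearIndependent ℚ (t i)) (A : Finset (T × J))
    (hA : Fintype.card T * Fintype.card J + (lowDeg (X ⊕ T) d).card ≤ A.card + Fintype.card J) :
    Cov ℚ (Bad x c t d) A := by
  classical
  by_contra hcon
  have h1 := ultra_bound (K := ℚ) x c t d hx ht
    ((fun l : T × J → ℤ => fun q => ((l q : ℤ) : ℚ)) '' (Bad x c t d)) (by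
      rintro _ ⟨l, hl, rfl⟩
      exact hl) A (by
      intro f hf
      by_contra hcon2
      push Not at hcon2
      apply hcon
      refine ⟨rename (fun a : A => (a : T × J)) f, ?_, ?_, ?_⟩
      · intro h
        exact hf (rename_injective _ Subtype.val_injective (by rw [h, map_zero]))
      · intro q hq
        have h2 := vars_rename (fun a : A => (a : T × J)) f hq
        obtain ⟨a, _, rfl⟩ := Finset.mem_image.1 h2
        exact a.2
      · intro l hl
        have h3 : eval (fun a : A => ((l a : ℤ) : ℚ)) f = 0 :=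
          hcon2 (fun q => ((l q : ℤ) : ℚ)) ⟨l, hl, rfl⟩
        rw [eval_rename]
        exact h3)
  omega

/-- the counting theorem -/
theorem bad_count (x : X → F) (c : T → F) (t : T → J → F) (d : ℕ)
    (hx : ∀ P : MvPolynomial X ℚ, P.totalDegree ≤ d → aeval x P = 0 → P = 0)
    (ht : ∀ i, LinearIndependent ℚ (t i)) :
    ∃ C : ℕ, ∀ H : ℕ, cnt (Bad x c t d) H ≤ C * (2 * H + 1) ^ ((Fintype.card T - 1) *
      Fintype.card J + ((Fintype.card X + Fintype.card T + d).choose d - 1)) := by
  classical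
  have hN : (lowDeg (X ⊕ T) d).card ≤ (Fintype.card X + Fintype.card T + d).choose d := by
    have := card_lowDeg_le (X ⊕ T) d
    rwa [Fintype.card_sum] at this
  have hN1 : 1 ≤ (Fintype.card X + Fintype.card T + d).choose d :=
    Nat.choose_pos (Nat.le_add_left _ _)
  set N := (Fintype.card X + Fintype.card T + d).choose d with hNdef
  rcases Nat.eq_zero_or_pos (Fintype.card T) with hT | hT
  · -- no exceptional points
    have hTe : IsEmpty T := Fintype.card_eq_zero_iff.1 hT
    have hBe : Bad x c t d = ∅ := by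
      rw [Set.eq_empty_iff_forall_notMem]
      rintro l ⟨P, hP0, hPd, hP⟩
      obtain ⟨Q, hQ⟩ := exists_rename_eq_of_vars_subset_range P (Sum.inl : X → X ⊕ T)
        Sum.inl_injective (by
          rintro (a | i) _
          · exact ⟨a, rfl⟩
          · exact hTe.elim i)
      have hQ0 : Q = 0 := by
        apply hx Q
        · have h1 := totalDegree_le_rename (Sum.inl : X → X ⊕ T) Sum.inl_injective Q
          rw [hQ] at h1
          omega
        · rw [← hQ, aeval_rename] at hP
          exact hP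
      exact hP0 (by rw [← hQ, hQ0, map_zero])
    refine ⟨0, fun H => ?_⟩
    rw [hBe, cnt]
    simp
  · obtain ⟨s, hs⟩ : ∃ s, Fintype.card T = s + 1 := ⟨Fintype.card T - 1, by omega⟩
    obtain ⟨C, hC⟩ := cnt_le (K := ℚ) (s * Fintype.card J + N) (Bad x c t d) (by
      intro A hA
      refine bad_cov x c t d hx ht A ?_
      rw [hA, hs, add_mul, one_mul]
      omega)
    refine ⟨C, fun H => ?_⟩
    have h1 := hC H
    obtain ⟨N', hN'⟩ : ∃ N', N = N' + 1 := ⟨N - 1, by omega⟩
    rw [hs, Nat.add_sub_cancel, hN', Nat.add_sub_cancel]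
    rw [hN', ← add_assoc, pow_succ, ← mul_assoc] at h1
    exact Nat.le_of_mul_le_mul_right h1 (by omega)

end

/-- the final form -/
theorem main (k s r d : ℕ) (x : Fin k → ℂ)
    (hx : ∀ P : MvPolynomial (Fin k) ℚ, P.totalDegree ≤ d → aeval x P = 0 → P = 0)
    (c : Fin s → ℂ) (t : Fin s → Fin r → ℂ) (ht : ∀ i, LinearIndependent ℚ (t i)) :
    ∃ C : ℕ, ∀ H : ℕ, Set.ncard {M : Fin s → Fin r → ℤ | (∀ i j, |M i j| ≤ H) ∧
      ∃ P : MvPolynomial (Fin k ⊕ Fin s) ℚ, P ≠ 0 ∧ P.totalDegree ≤ d ∧
        aeval (Sum.elim x fun i => c i + ∑ j, (M i j : ℂ) * t i j) P = 0} ≤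
      C * (2 * H + 1) ^ ((s - 1) * r + ((k + s + d).choose d - 1)) := by
  classical
  obtain ⟨C, hC⟩ := bad_count x c t d hx ht
  refine ⟨C, fun H => ?_⟩
  have h1 := hC H
  simp only [Fintype.card_fin] at h1
  refine le_trans ?_ h1
  unfold cnt
  rw [← Set.ncard_coe_finset]
  refine Set.ncard_le_ncard_of_injOn (fun M q => M q.1 q.2) ?_ ?_ (Finset.finite_toSet _)
  · rintro M ⟨hM, P, hP0, hPd, hP⟩
    rw [Finset.mem_coe, Finset.mem_filter]
    refine ⟨?_, P, hP0, hPd, ?_⟩
    · rw [box, Fintype.mem_piFinset]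
      intro q
      rw [Finset.mem_Icc]
      exact abs_le.1 (hM _ _)
    · rw [← hP]
      congr 2
  · intro M _ M' _ hMM
    funext i j
    exact congrFun hMM (i, j)

end Pool.Agent.GenTuple
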