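import Pool.Agent.GenTuple.Lift

/-!
# Existence of a point without relations of degree at most `d`
-/

namespace Pool.Agent.GenTuple
open MvPolynomial

variable {K F : Type*} [Field K] [Field F] [Algebra K F]

theorem totalDegree_pderiv_lt {ι : Type*} (i : ι) (P : MvPolynomial ι K)
    (h : pderiv i P ≠ 0) : (pderiv i P).totalDegree < P.totalDegree := by
  classical
  have hne : (pderiv i P).support.Nonempty := by
    rw [Finset.nonempty_iff_ne_empty, Ne, support_eq_empty]
    exact h
  obtain ⟨m, hm, hmax⟩ := Finset.exists_mem_eq_sup _ hne (fun s => s.sum fun _ e => e)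
  have h1 : (pderiv i P).totalDegree = m.sum fun _ e => e := hmax
  rw [h1]
  have h2 : m + Finsupp.single i 1 ∈ P.support := by
    rw [mem_support_iff] at hm ⊢
    intro h3
    apply hm
    rw [coeff_pderiv, h3, zero_mul]
  have h3 := le_totalDegree h2
  rw [Finsupp.sum_add_index' (fun _ => rfl) (fun _ _ _ => rfl),
    Finsupp.sum_single_index rfl] at h3
  omega

theorem totalDegree_le_rename {ι τ : Type*} (f : ι → τ) (hf : Function.Injective f)
    (Q : MvPolynomial ι K) : Q.totalDegree ≤ (rename f Q).totalDegree := by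
  refine Finset.sup_le fun m hm => ?_
  have h1 : m.mapDomain f ∈ (rename f Q).support := by
    rw [mem_support_iff, coeff_rename_mapDomain f hf]
    exact mem_support_iff.1 hm
  have h2 := le_totalDegree h1
  rwa [Finsupp.sum_mapDomain_index (fun _ => rfl) (fun _ _ _ => rfl)] at h2

theorem notMem_vars_of_pderiv [CharZero K] {ι : Type*} (i : ι) (P : MvPolynomial ι K)
    (h : pderiv i P = 0) : i ∉ P.vars := by
  classical
  intro hi
  rw [mem_vars_iff_mem_support] at hi
  obtain ⟨m, hm, him⟩ := hi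
  have hmi : m i ≠ 0 := Finsupp.mem_support_iff.1 him
  have h1 : m - Finsupp.single i 1 + Finsupp.single i 1 = m := by
    apply tsub_add_cancel_of_le
    rw [Finsupp.single_le_iff]
    omega
  have h2 := coeff_pderiv P (i := i) (m - Finsupp.single i 1)
  rw [h, coeff_zero, h1] at h2
  have h3 : P.coeff m ≠ 0 := mem_support_iff.1 hm
  have h4 : (((m - Finsupp.single i 1 : ι →₀ ℕ) i : ℕ) : K) + 1 ≠ 0 := by
    exact Nat.cast_add_one_ne_zero _
  exact (mul_ne_zero h3 h4) h2.symm

variable {X T J : Type*} [Fintype X] [Fintype T] [Fintype J] [DecidableEq X] [DecidableEq T]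
  [DecidableEq J]

theorem exists_pderiv [CharZero K] (x : X → F) (y : T → F) (d : ℕ)
    (hx : ∀ P : MvPolynomial X K, P.totalDegree ≤ d → aeval x P = 0 → P = 0)
    (h : ∃ P : MvPolynomial (X ⊕ T) K, P ≠ 0 ∧ P.totalDegree ≤ d ∧ aeval (Sum.elim x y) P = 0) :
    ∃ (P : MvPolynomial (X ⊕ T) K) (i : T), P.totalDegree ≤ d ∧ aeval (Sum.elim x y) P = 0 ∧
      aeval (Sum.elim x y) (pderiv (Sum.inr i) P) ≠ 0 := by
  classical
  -- minimal total degree
  have hex : ∃ n : ℕ, ∃ P : MvPolynomial (X ⊕ T) K, P ≠ 0 ∧ P.totalDegree = n ∧ n ≤ d ∧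
      aeval (Sum.elim x y) P = 0 := by
    obtain ⟨P, h1, h2, h3⟩ := h
    exact ⟨_, P, h1, rfl, h2, h3⟩
  obtain ⟨P, hP0, hPn, hnd, hP⟩ := Nat.find_spec hex
  have hmin := fun m (hm : m < Nat.find hex) => Nat.find_min hex hm
  by_contra hcon
  push Not at hcon
  have hz : ∀ i : T, pderiv (Sum.inr i) P = 0 := by
    intro i
    by_contra hne
    have h1 := totalDegree_pderiv_lt (Sum.inr i) P hne
    refine hmin _ (hPn ▸ h1) ⟨pderiv (Sum.inr i) P, hne, rfl, ?_, ?_⟩
    · omega
    · exact hcon P i (by omega) hP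
  have hvars : (P.vars : Set (X ⊕ T)) ⊆ Set.range (Sum.inl : X → X ⊕ T) := by
    intro l hl
    rcases l with a | i
    · exact ⟨a, rfl⟩
    · exact absurd hl (notMem_vars_of_pderiv _ P (hz i))
  obtain ⟨Q, hQ⟩ := exists_rename_eq_of_vars_subset_range P Sum.inl Sum.inl_injective hvars
  have hQ0 : Q = 0 := by
    apply hx Q
    · have h1 := totalDegree_le_rename (Sum.inl : X → X ⊕ T) Sum.inl_injective Q
      rw [hQ] at h1
      omega
    · rw [← hQ, aeval_rename] at hP
      exact hP
  exact hP0 (by rw [← hQ, hQ0, map_zero])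

theorem exists_max {α : Type*} [Nonempty α] (f : α → ℕ) (B : ℕ) (hB : ∀ a, f a ≤ B) :
    ∃ a, ∀ b, f b ≤ f a := by
  obtain ⟨a, ha⟩ : ∃ a, f a = sSup (Set.range f) := by
    have h1 : sSup (Set.range f) ∈ Set.range f :=
      Nat.sSup_mem (Set.range_nonempty f) ⟨B, by rintro _ ⟨a, rfl⟩; exact hB a⟩
    exact h1
  refine ⟨a, fun b => ?_⟩
  rw [ha]
  exact le_csSup ⟨B, by rintro _ ⟨a, rfl⟩; exact hB a⟩ ⟨b, rfl⟩

/-- the existence theorem -/
theorem exist [CharZero K] [CharZero F] [FiniteDimensional ℚ K] (x : X → F) (c : T → F)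
    (t : T → J → F) (d : ℕ)
    (hx : ∀ P : MvPolynomial X K, P.totalDegree ≤ d → aeval x P = 0 → P = 0)
    (ht : ∀ i, LinearIndependent ℚ (t i))
    (hr : Module.finrank ℚ K * (lowDeg (X ⊕ T) d).card ≤ Fintype.card J) :
    ∃ lam : T × J → K, LinearIndependent K
      (fun α : lowDeg (X ⊕ T) d => mon (pt x c t lam) α.1) := by
  classical
  obtain ⟨lam, hmax⟩ := exists_max
    (fun lam : T × J → K => Module.finrank K (Sp K d (pt x c t lam)))
    (lowDeg (X ⊕ T) d).card (by
      intro lam
      unfold Sp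
      refine (finrank_range_le_card (R := K)
        (fun α : lowDeg (X ⊕ T) d => mon (pt x c t lam) α.1)).trans ?_
      rw [Fintype.card_coe])
  refine ⟨lam, ?_⟩
  by_contra hli
  have hli' := hli
  rw [linInd_iff] at hli
  push Not at hli
  obtain ⟨P0, h1, h2, h3⟩ := hli
  obtain ⟨P, i, hPd, hP0, hPi⟩ := exists_pderiv x
    (fun i => c i + ∑ j, algebraMap K F (lam (i, j)) * t i j) d hx ⟨P0, h3, h1, h2⟩
  set M := Sp K d (pt x c t lam) with hM
  set a := aeval (pt x c t lam) (pderiv (Sum.inr i) P) with ha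
  have ha0 : a ≠ 0 := hPi
  have hmem : ∀ j, a * t i j ∈ M := fun j => lift x c t lam d hmax i j P hPd hP0
  -- the rank of `M`
  have hMlt : Module.finrank K M < (lowDeg (X ⊕ T) d).card := by
    have h4 : Module.finrank K M ≤ (lowDeg (X ⊕ T) d).card := by
      rw [hM]
      unfold Sp
      refine (finrank_range_le_card (R := K)
        (fun α : lowDeg (X ⊕ T) d => mon (pt x c t lam) α.1)).trans ?_
      rw [Fintype.card_coe]
    refine lt_of_le_of_ne h4 fun h5 => hli' ?_
    rw [linearIndependent_iff_card_eq_finrank_span, Fintype.card_coe]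
    exact h5.symm
  -- the family `a t_ij` in `M` over `ℚ`
  have hind : LinearIndependent ℚ (fun j : J => (⟨a * t i j, hmem j⟩ : M)) := by
    have h6 : LinearIndependent ℚ (fun j : J => a * t i j) := by
      have h7 := (ht i).map' (LinearMap.mulLeft ℚ a)
        (LinearMap.ker_eq_bot.2 fun u v huv => mul_left_cancel₀ ha0 huv)
      exact h7
    exact LinearIndependent.of_comp ((M.subtype).restrictScalars ℚ) h6
  have : Module.Finite ℚ M := Module.Finite.trans K M
  have h8 := hind.fintype_card_le_finrank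
  have h9 : Module.finrank ℚ M = Module.finrank ℚ K * Module.finrank K M :=
    (Module.finrank_mul_finrank ℚ K M).symm
  have h10 : 0 < Module.finrank ℚ K := Module.finrank_pos
  have h11 : Module.finrank ℚ K * Module.finrank K M <
      Module.finrank ℚ K * (lowDeg (X ⊕ T) d).card := Nat.mul_lt_mul_of_pos_left hMlt h10
  omega

end Pool.Agent.GenTuple
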