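import Pool.Agent.GenTuple.Exist

/-!
# First order deformation of relations at a point of maximal rank
-/

namespace Pool.Agent.GenTuple
open MvPolynomial

variable {K F : Type*} [Field K] [Field F] [Algebra K F]
variable {X T J : Type*} [Fintype X] [Fintype T] [Fintype J] [DecidableEq X] [DecidableEq T]
  [DecidableEq J]

/-- the point `(x, c + λ t)` -/
noncomputable def pt (x : X → F) (c : T → F) (t : T → J → F) (lam : T × J → K) : X ⊕ T → F :=
  Sum.elim x fun i => c i + ∑ j, algebraMap K F (lam (i, j)) * t i j

/-- the span of the monomials of degree at most `d` -/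
noncomputable def Sp (K : Type*) [Field K] [Algebra K F] {ι : Type*} [Fintype ι] [DecidableEq ι]
    (d : ℕ) (y : ι → F) : Submodule K F :=
  Submodule.span K (Set.range fun α : lowDeg ι d => mon y α.1)

instance {ι : Type*} [Fintype ι] [DecidableEq ι] (d : ℕ) (y : ι → F) :
    FiniteDimensional K (Sp K d y) := by
  unfold Sp
  exact FiniteDimensional.span_of_finite K (Set.finite_range _)

/-- the curve -/
noncomputable def crv (y0 : X ⊕ T → F) (i : T) (e : F) : X ⊕ T → Polynomial F := fun l =>
  Polynomial.C (y0 l) + if l = Sum.inr i then Polynomial.C e * Polynomial.X else 0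

theorem eval_crv (x : X → F) (c : T → F) (t : T → J → F) (lam : T × J → K) (i : T) (j : J)
    (ε : K) (l : X ⊕ T) :
    (crv (pt x c t lam) i (t i j) l).eval (algebraMap K F ε) =
      pt x c t (Function.update lam (i, j) (lam (i, j) + ε)) l := by
  rcases l with a | i'
  · simp [crv, pt]
  · by_cases hi : i' = i
    · subst hi
      have h1 : ∀ j' : J, algebraMap K F (Function.update lam (i', j) (lam (i', j) + ε) (i', j')) *
          t i' j' = algebraMap K F (lam (i', j')) * t i' j' +
            if j' = j then algebraMap K F ε * t i' j else 0 := by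
        intro j'
        by_cases hj : j' = j
        · subst hj
          simp
          ring
        · rw [if_neg hj, add_zero, Function.update_of_ne]
          intro h2
          exact hj (Prod.ext_iff.1 h2).2
      simp only [crv, pt, Sum.elim_inr, if_true, Polynomial.eval_add, Polynomial.eval_C,
        Polynomial.eval_mul, Polynomial.eval_X, h1, Finset.sum_add_distrib, Finset.sum_ite_eq',
        Finset.mem_univ]
      ring
    · have h1 : ∀ j' : J, Function.update lam (i, j) (lam (i, j) + ε) (i', j') = lam (i', j') := by
        intro j'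
        rw [Function.update_of_ne]
        intro h2
        exact hi (Prod.ext_iff.1 h2).1
      have h2 : (Sum.inr i' : X ⊕ T) ≠ Sum.inr i := by
        intro h3
        exact hi (Sum.inr_injective h3)
      simp only [crv, pt, Sum.elim_inr, if_neg h2, Polynomial.eval_C, h1, add_zero]

theorem eval_aeval {ι : Type*} (Y : ι → Polynomial F) (P : MvPolynomial ι K) (z : F) :
    (aeval Y P).eval z = aeval (fun l => (Y l).eval z) P := by
  have h1 : ((Polynomial.aeval z : Polynomial F →ₐ[F] F).restrictScalars K).comp
      (aeval Y : MvPolynomial ι K →ₐ[K] Polynomial F) = aeval (fun l => (Y l).eval z) := by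
    apply MvPolynomial.algHom_ext
    intro l
    simp
  have h2 := congrArg (fun f => f P) h1
  simpa [Polynomial.aeval_def] using h2

theorem lift [CharZero K] (x : X → F) (c : T → F) (t : T → J → F) (lam : T × J → K) (d : ℕ)
    (hmax : ∀ mu : T × J → K, Module.finrank K (Sp K d (pt x c t mu)) ≤
      Module.finrank K (Sp K d (pt x c t lam)))
    (i : T) (j : J) (P : MvPolynomial (X ⊕ T) K) (hP : P.totalDegree ≤ d)
    (h0 : aeval (pt x c t lam) P = 0) :
    aeval (pt x c t lam) (pderiv (Sum.inr i) P) * t i j ∈ Sp K d (pt x c t lam) := by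
  classical
  by_contra hw
  set y0 := pt x c t lam with hy0
  set Y := crv y0 i (t i j) with hY
  set G := aeval Y P with hG
  have hY0 : (fun l => (Y l).eval 0) = y0 := by
    funext l
    simp only [hY, crv]
    split_ifs <;> simp
  have hev : ∀ ε : K, ∀ Q : MvPolynomial (X ⊕ T) K, (aeval Y Q).eval (algebraMap K F ε) =
      aeval (pt x c t (Function.update lam (i, j) (lam (i, j) + ε))) Q := by
    intro ε Q
    rw [eval_aeval]
    congr 1
    have : (fun l => (Y l).eval (algebraMap K F ε)) =
        pt x c t (Function.update lam (i, j) (lam (i, j) + ε)) := by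
      funext l
      exact eval_crv x c t lam i j ε l
    rw [this]
  have hev0 : ∀ Q : MvPolynomial (X ⊕ T) K, (aeval Y Q).coeff 0 = aeval y0 Q := by
    intro Q
    rw [Polynomial.coeff_zero_eq_eval_zero, eval_aeval, hY0]
  have hG0 : G.coeff 0 = 0 := by rw [hG, hev0, h0]
  have hG1 : G.coeff 1 = aeval y0 (pderiv (Sum.inr i) P) * t i j := by
    have h1 : (Polynomial.derivative G).coeff 0 = G.coeff 1 := by
      rw [Polynomial.coeff_derivative]
      simp
    rw [← h1, Polynomial.coeff_zero_eq_eval_zero, hG, derivative_aeval, Polynomial.eval_finsetSum,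
      Finset.sum_eq_single (Sum.inr i)]
    · rw [Polynomial.eval_mul, eval_aeval, hY0]
      congr 1
      simp [hY, crv]
    · intro l _ hl
      rw [Polynomial.eval_mul]
      have : Polynomial.derivative (Y l) = 0 := by
        simp [hY, crv, hl]
      rw [this, Polynomial.eval_zero, mul_zero]
    · intro h
      exact absurd (Finset.mem_univ _) h
  have hGX : G = G.divX * Polynomial.X := by
    conv_lhs => rw [← Polynomial.divX_mul_X_add G]
    rw [hG0, map_zero, add_zero]
  -- a basis among the monomials
  obtain ⟨κ, a, ha, hspan, hli⟩ := exists_linearIndependent' K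
    (fun α : lowDeg (X ⊕ T) d => mon y0 α.1)
  have hfin : Finite κ := Finite.of_injective a ha
  have : Fintype κ := Fintype.ofFinite κ
  have hw' : G.divX.coeff 0 ∉ Submodule.span K (Set.range ((fun α : lowDeg (X ⊕ T) d => mon y0 α.1) ∘ a)) := by
    rw [hspan, Polynomial.coeff_divX, zero_add, hG1]
    exact hw
  have hopt := hli.option hw'
  -- the curve of families
  let h : Option κ → Polynomial F := fun o => Option.casesOn' o G.divX
    (fun b => aeval Y (monomial (a b).1 (1 : K)))
  have hmon : ∀ (y : X ⊕ T → F) (α : (X ⊕ T) →₀ ℕ), aeval y (monomial α (1 : K)) = mon y α := by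
    intro y α
    rw [aeval_monomial, map_one, one_mul]
    rfl
  have hh0 : LinearIndependent K (fun o => (h o).coeff 0) := by
    have hfun : (fun o => (h o).coeff 0) = fun o => Option.casesOn' o (G.divX.coeff 0)
        ((fun α : lowDeg (X ⊕ T) d => mon y0 α.1) ∘ a) := by
      funext o
      rcases o with _ | b
      · rfl
      · simp only [h, Option.casesOn', Function.comp_apply, hev0, hmon]
    rw [hfun]
    exact hopt
  obtain ⟨p, hp0, hp⟩ := open_curve h hh0
  -- choose a small parameter
  obtain ⟨ε, hε⟩ : ∃ ε : K, (p * Polynomial.X).eval ε ≠ 0 := by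
    by_contra hcon
    push Not at hcon
    have h1 : p * Polynomial.X = 0 := Polynomial.funext fun r => by rw [hcon r, Polynomial.eval_zero]
    exact (mul_ne_zero hp0 Polynomial.X_ne_zero) h1
  rw [Polynomial.eval_mul, Polynomial.eval_X] at hε
  have hpε := left_ne_zero_of_mul hε
  have hε0 := right_ne_zero_of_mul hε
  have hli2 := hp ε hpε
  set mu := Function.update lam (i, j) (lam (i, j) + ε) with hmu
  have hmem : ∀ o, (h o).eval (algebraMap K F ε) ∈ Sp K d (pt x c t mu) := by
    intro o
    rcases o with _ | b
    · have h1 : G.eval (algebraMap K F ε) ∈ Sp K d (pt x c t mu) := by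
        rw [hG, hev]
        exact aeval_mem_span d _ P hP
      have h2 : (h none).eval (algebraMap K F ε) = (ε⁻¹) • G.eval (algebraMap K F ε) := by
        have h3 : (h none) = G.divX := rfl
        rw [h3]
        conv_rhs => rw [hGX]
        rw [Polynomial.eval_mul, Polynomial.eval_X, Algebra.smul_def, map_inv₀]
        have h4 : algebraMap K F ε ≠ 0 := by
          rwa [Ne, FaithfulSMul.algebraMap_eq_zero_iff]
        field_simp
      rw [h2]
      exact Submodule.smul_mem _ _ h1
    · have h1 : h (some b) = aeval Y (monomial (a b).1 (1 : K)) := rfl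
      rw [h1, hev, hmon]
      exact Submodule.subset_span ⟨a b, rfl⟩
  have hcard1 : Fintype.card (Option κ) ≤ Module.finrank K (Sp K d (pt x c t mu)) := by
    have h1 := finrank_span_eq_card hli2
    rw [← h1]
    refine Submodule.finrank_mono ?_
    rw [Submodule.span_le]
    rintro _ ⟨o, rfl⟩
    exact hmem o
  have hcard2 : Fintype.card κ = Module.finrank K (Sp K d y0) := by
    have h1 := finrank_span_eq_card hli
    rw [hspan] at h1
    exact h1.symm
  have := hmax mu
  rw [Fintype.card_option, hcard2] at hcard1
  omega

end Pool.Agent.GenTuple
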