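import Pool.Agent.GenTuple.Gen
import Pool.Agent.GenTuple.Der

/-!
# Differentiating a relation whose coefficients are not constants
-/

namespace Pool.Agent.GenTuple
open MvPolynomial TensorProduct

/-- chain rule for a derivation over `K` -/
theorem der_aeval {K A : Type*} [CommRing K] [CommRing A] [Algebra K A] {ι : Type*} [Fintype ι]
    [DecidableEq ι] (D : Derivation K A A) (Y : ι → A) (P : MvPolynomial ι K) :
    D (aeval Y P) = ∑ l, aeval Y (pderiv l P) * D (Y l) := by
  induction P using MvPolynomial.induction_on with
  | C a =>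
    simp only [algHom_C, pderiv_C, map_zero, zero_mul, Finset.sum_const_zero]
    exact D.map_algebraMap a
  | add p q hp hq =>
    simp only [map_add, hp, hq, add_mul, Finset.sum_add_distrib]
  | mul_X p n hp =>
    have hX : ∑ l, aeval Y (pderiv l (X n : MvPolynomial ι K)) * D (Y l) = D (Y n) := by
      rw [Finset.sum_eq_single n]
      · rw [pderiv_X_self, map_one, one_mul]
      · intro l _ hl
        rw [pderiv_X_of_ne (Ne.symm hl), map_zero, zero_mul]
      · intro h
        exact absurd (Finset.mem_univ _) h
    simp only [map_mul, aeval_X, hp, Derivation.leibniz, smul_eq_mul,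
      map_add, add_mul, Finset.sum_add_distrib]
    have h1 : ∑ l, aeval Y p * aeval Y (pderiv l (X n : MvPolynomial ι K)) * D (Y l) =
        aeval Y p * D (Y n) := by
      rw [← hX, Finset.mul_sum]
      exact Finset.sum_congr rfl fun l _ => by ring
    have h2 : ∑ l, Y n * aeval Y (pderiv l p) * D (Y l) =
        Y n * (∑ l, aeval Y (pderiv l p) * D (Y l)) := by
      rw [Finset.mul_sum]
      exact Finset.sum_congr rfl fun l _ => by ring
    rw [h1, h2]

/-- the polynomial with differentiated coefficients -/
noncomputable def dcoef {K E : Type*} [CommRing K] [CommRing E] [Algebra K E] {ι : Type*}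
    (δ : Derivation K E E) (P : MvPolynomial ι E) : MvPolynomial ι E :=
  ∑ α ∈ P.support, monomial α (δ (P.coeff α))

theorem totalDegree_dcoef {K E : Type*} [CommRing K] [CommRing E] [Algebra K E] {ι : Type*}
    (δ : Derivation K E E) (P : MvPolynomial ι E) : (dcoef δ P).totalDegree ≤ P.totalDegree := by
  refine (totalDegree_finsetSum _ _).trans (Finset.sup_le fun α hα => ?_)
  exact (totalDegree_monomial_le _ _).trans (le_totalDegree hα)

theorem der_twist {K E A : Type*} [CommRing K] [CommRing E] [CommRing A] [Algebra K E]
    [Algebra K A] [Algebra E A] [IsScalarTower K E A] {ι : Type*} [Fintype ι] [DecidableEq ι]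
    (δ : Derivation K E E) (D : Derivation K A A)
    (hD : ∀ e : E, D (algebraMap E A e) = algebraMap E A (δ e)) (Y : ι → A)
    (P : MvPolynomial ι E) :
    D (aeval Y P) = aeval Y (dcoef δ P) + ∑ l, aeval Y (pderiv l P) * D (Y l) := by
  have hmon : ∀ α : ι →₀ ℕ, ∀ e : E, D (aeval Y (monomial α e)) =
      aeval Y (monomial α (δ e)) + ∑ l, aeval Y (pderiv l (monomial α e)) * D (Y l) := by
    intro α e
    have h1 : ∀ e : E, aeval Y (monomial α e) =
        algebraMap E A e * aeval Y (monomial α (1 : K)) := by
      intro e
      rw [aeval_monomial, aeval_monomial, map_one, one_mul]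
    have h2 : ∀ l, aeval Y (pderiv l (monomial α e)) =
        algebraMap E A e * aeval Y (pderiv l (monomial α (1 : K))) := by
      intro l
      rw [pderiv_monomial, pderiv_monomial, aeval_monomial, aeval_monomial, map_mul, one_mul,
        map_natCast, map_natCast]
      ring
    have h3 : ∑ l, aeval Y (pderiv l (monomial α e)) * D (Y l) =
        algebraMap E A e * ∑ l, aeval Y (pderiv l (monomial α (1 : K))) * D (Y l) := by
      rw [Finset.mul_sum]
      exact Finset.sum_congr rfl fun l _ => by rw [h2 l]; ring
    rw [h3, h1 e, Derivation.leibniz, smul_eq_mul, smul_eq_mul, hD, der_aeval, h1 (δ e)]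
    ring
  conv_lhs => rw [P.as_sum]
  rw [map_sum, map_sum, Finset.sum_congr rfl fun α _ => hmon α _, Finset.sum_add_distrib]
  congr 1
  · rw [dcoef, map_sum]
  · rw [Finset.sum_comm]
    refine Finset.sum_congr rfl fun l _ => ?_
    conv_rhs => rw [P.as_sum]
    rw [map_sum, map_sum, Finset.sum_mul]

/-- the derivation `δ ⊗ 1` -/
noncomputable def tder {K E F : Type*} [Field K] [Field E] [Field F] [Algebra K E] [Algebra K F]
    (δ : Derivation K E E) : Derivation K (E ⊗[K] F) (E ⊗[K] F) :=
  Derivation.mk' (LinearMap.rTensor F (δ : E →ₗ[K] E)) (by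
    intro a b
    induction a using TensorProduct.induction_on with
    | zero => simp
    | add a1 a2 h1 h2 =>
      rw [add_mul, map_add, h1, h2, map_add, add_smul, smul_add]
      abel
    | tmul e f =>
      induction b using TensorProduct.induction_on with
      | zero => simp
      | add b1 b2 h1 h2 =>
        rw [mul_add, map_add, h1, h2, map_add, add_smul, smul_add]
        abel
      | tmul e' f' =>
        simp only [Algebra.TensorProduct.tmul_mul_tmul, LinearMap.rTensor_tmul,
          Derivation.coeFn_coe, Derivation.leibniz, smul_eq_mul, TensorProduct.add_tmul]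
        rw [mul_comm f' f])

theorem tder_tmul {K E F : Type*} [Field K] [Field E] [Field F] [Algebra K E] [Algebra K F]
    (δ : Derivation K E E) (e : E) (f : F) : tder (F := F) δ (e ⊗ₜ f) = (δ e) ⊗ₜ f := rfl

end Pool.Agent.GenTuple
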